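import Pool.Agent.Helper67.KPG.St1

/-!
# Project KP (MP_26be5b_ag), module MOR of helper67: Morozov's lemma
-/

set_option autoImplicit false

namespace Pool.Agent.Helper75.KPG

open Pool.Agent.Helper67.KPG

universe u

theorem hMOR (hKER : StKER.{u}) : StMOR.{u} := by
  intro g _ _ _ e F he hnil hF
  set h : g := ⁅e, F⁆ with hh
  have hhe : ⁅h, e⁆ = (2 : ℂ) • e := by
    rw [← lie_skew, hh, hF, neg_neg]
  set A : Module.End ℂ g := LieAlgebra.ad ℂ g e with hA
  set B : Module.End ℂ g := LieAlgebra.ad ℂ g F with hB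
  set H : Module.End ℂ g := LieAlgebra.ad ℂ g h with hH
  have hA_apply : ∀ x, A x = ⁅e, x⁆ := fun x => rfl
  have hB_apply : ∀ x, B x = ⁅F, x⁆ := fun x => rfl
  have hH_apply : ∀ x, H x = ⁅h, x⁆ := fun x => rfl
  have hHA : H * A - A * H = (2 : ℂ) • A := by
    refine LinearMap.ext fun x => ?_
    rw [LinearMap.sub_apply, Module.End.mul_apply, Module.End.mul_apply, LinearMap.smul_apply,
      hA_apply, hA_apply, hH_apply, hH_apply, leibniz_lie h e x, add_sub_cancel_right, hhe, smul_lie]
  have hAB : A * B - B * A = H := by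
    refine LinearMap.ext fun x => ?_
    rw [LinearMap.sub_apply, Module.End.mul_apply, Module.End.mul_apply,
      hA_apply, hA_apply, hB_apply, hB_apply, hH_apply, leibniz_lie e F x, add_sub_cancel_right]
  obtain ⟨n, hn⟩ := hnil
  have hker := hKER g A B H n hHA hAB hn
  -- `H` maps `ker A` to itself
  have hHK : ∀ z ∈ LinearMap.ker A, (H + (2 : ℂ) • (1 : Module.End ℂ g)) z ∈ LinearMap.ker A := by
    intro z hz
    rw [LinearMap.mem_ker] at hz ⊢
    have h1 := LinearMap.congr_fun hHA z
    rw [LinearMap.sub_apply, Module.End.mul_apply, Module.End.mul_apply, LinearMap.smul_apply, hz,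
      map_zero, smul_zero, zero_sub, neg_eq_zero] at h1
    rw [LinearMap.add_apply, LinearMap.smul_apply, Module.End.one_apply, map_add, map_smul, hz,
      h1, smul_zero, add_zero]
  have hinj : Function.Injective ((H + (2 : ℂ) • (1 : Module.End ℂ g)).restrict hHK) := by
    rw [injective_iff_map_eq_zero]
    intro z hz
    by_contra hne
    have hz' : (z : g) ≠ 0 := fun h0 => hne (Subtype.ext h0)
    have h1 : (H + (2 : ℂ) • (1 : Module.End ℂ g)) (z : g) = 0 := by
      have := congrArg Subtype.val hz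
      rw [LinearMap.coe_restrict_apply] at this
      exact this
    have h2 : H (z : g) = (-2 : ℂ) • (z : g) := by
      rw [LinearMap.add_apply, LinearMap.smul_apply, Module.End.one_apply] at h1
      rw [neg_smul]
      exact eq_neg_of_add_eq_zero_left h1
    have h3 : Module.End.HasEigenvector H (-2 : ℂ) (z : g) :=
      ⟨Module.End.mem_eigenspace_iff.mpr h2, hz'⟩
    have h4 := Module.End.aeval_apply_of_hasEigenvector (p := ∏ i ∈ Finset.range n,
      (Polynomial.X - Polynomial.C (i : ℂ))) h3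
    rw [hker z z.2] at h4
    have h5 := (smul_eq_zero.mp h4.symm).resolve_right hz'
    rw [Polynomial.eval_prod, Finset.prod_eq_zero_iff] at h5
    obtain ⟨i, -, hi⟩ := h5
    rw [Polynomial.eval_sub, Polynomial.eval_X, Polynomial.eval_C] at hi
    have h6 := congrArg Complex.re hi
    simp only [Complex.sub_re, Complex.neg_re, Complex.re_ofNat, Complex.natCast_re,
      Complex.zero_re] at h6
    have : (0 : ℝ) ≤ i := Nat.cast_nonneg i
    linarith
  have hsurj := LinearMap.injective_iff_surjective.mp hinj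
  have hmem : ⁅h, F⁆ + (2 : ℂ) • F ∈ LinearMap.ker A := by
    rw [LinearMap.mem_ker, hA_apply, lie_add, lie_smul, leibniz_lie, ← hh]
    have h1 : ⁅e, h⁆ = -((2 : ℂ) • e) := hF
    rw [h1, lie_self, add_zero, neg_lie, smul_lie, ← hh, neg_add_cancel]
  obtain ⟨z, hz⟩ := hsurj ⟨_, hmem⟩
  have hz1 : ⁅h, (z : g)⁆ + (2 : ℂ) • (z : g) = ⁅h, F⁆ + (2 : ℂ) • F := by
    have := congrArg Subtype.val hz
    rw [LinearMap.coe_restrict_apply, LinearMap.add_apply, LinearMap.smul_apply,
      Module.End.one_apply, hH_apply] at this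
    exact this
  have hz2 : ⁅e, (z : g)⁆ = 0 := z.2
  refine ⟨F - z, ?_, ?_, ?_, ?_⟩
  · intro h0
    rw [h0, zero_lie] at hhe
    exact he ((smul_eq_zero.mp hhe.symm).resolve_left two_ne_zero)
  · rw [lie_sub, hz2, sub_zero]
  · rw [hhe, two_smul, two_nsmul]
  · rw [lie_sub, two_nsmul]
    have h1 : ⁅h, F⁆ - ⁅h, (z : g)⁆ = (2 : ℂ) • (z : g) - (2 : ℂ) • F := by
      rw [sub_eq_sub_iff_add_eq_add, ← hz1, add_comm]
    rw [h1, two_smul, two_smul]
    abel

end Pool.Agent.Helper75.KPG
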